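import Mathlib
import Pool.Agent.Y865.RF.Stm

/-! Kempe changes at a vertex (after `Pool.Agent.Y708.RF.Kempe`), any finite set of neighbours. -/

set_option autoImplicit false

namespace Pool.Agent.Q262.BL

open Pool.Agent.Y865.RF Pool.Agent.H207R2.BL

section

variable {V : Type} {d : ℕ} (G : SimpleGraph V) (v : V) (a : Fin d → {x : V // x ≠ v})

/-- the graph without `v` -/
abbrev HH : SimpleGraph {x : V // x ≠ v} := G.comap Subtype.val

/-- the vertices of two colours -/
def SS (g : {x : V // x ≠ v} → Fin 5) (i j : Fin d) : Set {x : V // x ≠ v} :=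
  {x | g x = g (a i) ∨ g x = g (a j)}

/-- the Kempe component -/
def KK (g : {x : V // x ≠ v} → Fin 5) (i j : Fin d) (x : {x : V // x ≠ v}) : Prop :=
  Cn (HH G v) (SS v a g i j) (a i) x

lemma SS_comm (g : {x : V // x ≠ v} → Fin 5) (i j : Fin d) : SS v a g i j = SS v a g j i := by
  ext x
  exact or_comm

lemma KK_self (g : {x : V // x ≠ v} → Fin 5) (i j : Fin d) : KK G v a g i j (a i) := by
  refine ⟨SimpleGraph.Walk.nil, fun z hz => ?_⟩
  rw [SimpleGraph.Walk.support_nil, List.mem_singleton] at hz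
  subst hz
  exact Or.inl rfl

lemma KK_symm (g : {x : V // x ≠ v} → Fin 5) (i j : Fin d) (h : KK G v a g i j (a j)) :
    KK G v a g j i (a i) := by
  obtain ⟨w, hw⟩ := h
  refine ⟨w.reverse, fun z hz => ?_⟩
  rw [SimpleGraph.Walk.support_reverse, List.mem_reverse] at hz
  rw [SS_comm]
  exact hw z hz

lemma KK_mem (g : {x : V // x ≠ v} → Fin 5) (i j : Fin d) (x : {x : V // x ≠ v})
    (hx : KK G v a g i j x) : x ∈ SS v a g i j := by
  obtain ⟨w, hw⟩ := hx
  exact hw x w.end_mem_support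

lemma KK_step (g : {x : V // x ≠ v} → Fin 5) (i j : Fin d) (x y : {x : V // x ≠ v})
    (hx : KK G v a g i j x) (hxy : (HH G v).Adj x y) (hy : y ∈ SS v a g i j) :
    KK G v a g i j y := by
  obtain ⟨w, hw⟩ := hx
  refine ⟨w.concat hxy, fun z hz => ?_⟩
  rw [SimpleGraph.Walk.support_concat, List.mem_append, List.mem_singleton] at hz
  rcases hz with hz | hz
  · exact hw z hz
  · subst hz
    exact hy

/-- the Kempe change -/
def RR (g : {x : V // x ≠ v} → Fin 5) (y : V → Fin 5) (i j : Fin d) : Prop :=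
  i < j ∧ Function.Injective (fun k => g (a k)) ∧ ¬ KK G v a g i j (a j) ∧
    y v = g (a i) ∧
    ∀ x : {x : V // x ≠ v}, (KK G v a g i j x → y x.1 = Equiv.swap (g (a i)) (g (a j)) (g x)) ∧
      (¬ KK G v a g i j x → y x.1 = g x)

/-- values at the neighbours -/
lemma vals (g : {x : V // x ≠ v} → Fin 5) (y : V → Fin 5) (i j : Fin d)
    (hinj : Function.Injective (fun k => g (a k))) (hn : ¬ KK G v a g i j (a j))
    (hy : ∀ x : {x : V // x ≠ v},
      (KK G v a g i j x → y x.1 = Equiv.swap (g (a i)) (g (a j)) (g x)) ∧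
      (¬ KK G v a g i j x → y x.1 = g x)) :
    y (a i).1 = g (a j) ∧ y (a j).1 = g (a j) ∧ ∀ k, k ≠ i → k ≠ j → y (a k).1 = g (a k) := by
  refine ⟨?_, (hy _).2 hn, fun k hki hkj => (hy _).2 fun hk => ?_⟩
  · rw [(hy _).1 (KK_self G v a g i j), Equiv.swap_apply_left]
  · rcases KK_mem G v a g i j _ hk with h | h
    · exact hki (hinj h)
    · exact hkj (hinj h)

/-- the set of vertices of two colours, after the Kempe change -/
lemma set_eq (g : {x : V // x ≠ v} → Fin 5) (y : V → Fin 5) (i j : Fin d)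
    (hy : ∀ x : {x : V // x ≠ v},
      (KK G v a g i j x → y x.1 = Equiv.swap (g (a i)) (g (a j)) (g x)) ∧
      (¬ KK G v a g i j x → y x.1 = g x)) :
    SS v a g i j = {x | y x.1 = g (a i) ∨ y x.1 = g (a j)} := by
  ext x
  by_cases hx : KK G v a g i j x
  · have h1 := KK_mem G v a g i j x hx
    constructor
    · intro _
      rw [Set.mem_ofPred_eq, (hy x).1 hx]
      rcases h1 with h | h
      · right
        rw [h, Equiv.swap_apply_left]
      · left
        rw [h, Equiv.swap_apply_right]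
    · intro _
      exact h1
  · rw [Set.mem_ofPred_eq, (hy x).2 hx]
    rfl

lemma RR_pair (g : {x : V // x ≠ v} → Fin 5) (y : V → Fin 5) (i j : Fin d)
    (hg : RR G v a g y i j) (k l : Fin d) (hkl : k < l) (he : y (a k).1 = y (a l).1) :
    k = i ∧ l = j := by
  obtain ⟨hij, hinj, hn, hv, hy⟩ := hg
  obtain ⟨v1, v2, v3⟩ := vals G v a g y i j hinj hn hy
  have hne : k ≠ l := ne_of_lt hkl
  have hval : ∀ m : Fin d, m ≠ i → y (a m).1 = g (a m) := by
    intro m hm
    by_cases hmj : m = j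
    · rw [hmj]
      exact v2
    · exact v3 m hm hmj
  by_cases hk : k = i
  · have hl : l ≠ i := fun h => hne (hk.trans h.symm)
    rw [hk, v1, hval l hl] at he
    exact ⟨hk, (hinj he).symm⟩
  · by_cases hl : l = i
    · rw [hl, v1, hval k hk] at he
      have h3 : k = j := hinj he
      rw [h3, hl] at hkl
      exact absurd hkl (lt_asymm hij)
    · rw [hval k hk, hval l hl] at he
      exact absurd (hinj he) hne

lemma RR_eq (g : {x : V // x ≠ v} → Fin 5) (y : V → Fin 5) (i j : Fin d)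
    (hg : RR G v a g y i j) : y (a i).1 = y (a j).1 := by
  obtain ⟨hij, hinj, hn, hv, hy⟩ := hg
  obtain ⟨v1, v2, v3⟩ := vals G v a g y i j hinj hn hy
  rw [v1, v2]

lemma RR_inj (g h : {x : V // x ≠ v} → Fin 5) (y : V → Fin 5) (i j i' j' : Fin d)
    (hg : RR G v a g y i j) (hh : RR G v a h y i' j') : i = i' ∧ j = j' ∧ g = h := by
  obtain ⟨e2, e3⟩ := RR_pair G v a g y i j hg i' j' hh.1 (RR_eq G v a h y i' j' hh)
  subst e2
  subst e3
  refine ⟨rfl, rfl, ?_⟩
  obtain ⟨hij, hinj, hn, hv, hy⟩ := hg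
  obtain ⟨hij', hinj', hn', hv', hy'⟩ := hh
  obtain ⟨v1, v2, v3⟩ := vals G v a g y _ _ hinj hn hy
  obtain ⟨w1, w2, w3⟩ := vals G v a h y _ _ hinj' hn' hy'
  have c1 : g (a i') = h (a i') := hv.symm.trans hv'
  have c2 : g (a j') = h (a j') := v2.symm.trans w2
  have hS : SS v a g i' j' = SS v a h i' j' := by
    rw [set_eq G v a g y i' j' hy, set_eq G v a h y i' j' hy', c1, c2]
  have hK : ∀ x, KK G v a g i' j' x ↔ KK G v a h i' j' x := by
    intro x
    unfold KK
    rw [hS]
  funext x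
  by_cases hx : KK G v a g i' j' x
  · have h1 := (hy x).1 hx
    have h2 := (hy' x).1 ((hK x).1 hx)
    rw [h1, ← c1, ← c2] at h2
    exact (Equiv.injective _ h2)
  · have h1 := (hy x).2 hx
    have h2 := (hy' x).2 (fun h => hx ((hK x).2 h))
    exact h1.symm.trans h2

/-- the colour of `v` is new -/
lemma RR_new (g : {x : V // x ≠ v} → Fin 5) (y : V → Fin 5) (i j : Fin d)
    (hg : RR G v a g y i j) (k : Fin d) : y (a k).1 ≠ y v := by
  obtain ⟨hij, hinj, hn, hv, hy⟩ := hg
  obtain ⟨v1, v2, v3⟩ := vals G v a g y i j hinj hn hy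
  have hne : i ≠ j := ne_of_lt hij
  rw [hv]
  by_cases hki : k = i
  · rw [hki, v1]
    exact fun h => hne (hinj h).symm
  · by_cases hkj : k = j
    · rw [hkj, v2]
      exact fun h => hne (hinj h).symm
    · rw [v3 k hki hkj]
      exact fun h => hki (hinj h)

lemma RR_proper (ha : ∀ u, G.Adj v u → ∃ k, (a k).1 = u)
    (g : {x : V // x ≠ v} → Fin 5) (y : V → Fin 5) (i j : Fin d) (hp : Proper (HH G v) g)
    (hg : RR G v a g y i j) : Proper G y := by
  have hnew := RR_new G v a g y i j hg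
  obtain ⟨hij, hinj, hn, hv, hy⟩ := hg
  -- one endpoint in the component
  have hone : ∀ p q : {x : V // x ≠ v}, (HH G v).Adj p q → KK G v a g i j p →
      ¬ KK G v a g i j q → y p.1 ≠ y q.1 := by
    intro p q hpq h1 h2 he
    have h3 : q ∉ SS v a g i j := fun h => h2 (KK_step G v a g i j p q h1 hpq h)
    have h4 := KK_mem G v a g i j p h1
    rw [(hy p).1 h1, (hy q).2 h2] at he
    apply h3
    rcases h4 with h | h
    · rw [h, Equiv.swap_apply_left] at he
      exact Or.inr he.symm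
    · rw [h, Equiv.swap_apply_right] at he
      exact Or.inl he.symm
  intro p q hpq
  by_cases h1 : p = v
  · subst h1
    obtain ⟨k, hk⟩ := ha q hpq
    rw [← hk]
    exact (hnew k).symm
  · by_cases h2 : q = v
    · subst h2
      obtain ⟨k, hk⟩ := ha p hpq.symm
      rw [← hk]
      exact hnew k
    · have hadj : (HH G v).Adj ⟨p, h1⟩ ⟨q, h2⟩ := hpq
      by_cases k1 : KK G v a g i j ⟨p, h1⟩
      · by_cases k2 : KK G v a g i j ⟨q, h2⟩
        · have e1 := (hy ⟨p, h1⟩).1 k1
          have e2 := (hy ⟨q, h2⟩).1 k2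
          intro he
          have h3 : y (⟨p, h1⟩ : {x : V // x ≠ v}).1 = y (⟨q, h2⟩ : {x : V // x ≠ v}).1 := he
          rw [e1, e2] at h3
          exact hp _ _ hadj (Equiv.injective _ h3)
        · exact hone _ _ hadj k1 k2
      · by_cases k2 : KK G v a g i j ⟨q, h2⟩
        · exact (hone _ _ hadj.symm k2 k1).symm
        · have e1 := (hy ⟨p, h1⟩).2 k1
          have e2 := (hy ⟨q, h2⟩).2 k2
          intro he
          have h3 : y (⟨p, h1⟩ : {x : V // x ≠ v}).1 = y (⟨q, h2⟩ : {x : V // x ≠ v}).1 := he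
          rw [e1, e2] at h3
          exact hp _ _ hadj h3

lemma RR_exists (g : {x : V // x ≠ v} → Fin 5) (i j : Fin d) (hij : i < j)
    (hinj : Function.Injective (fun k => g (a k))) (hn : ¬ KK G v a g i j (a j)) :
    ∃ y, RR G v a g y i j := by
  classical
  refine ⟨fun u => if hu : u = v then g (a i) else
    if KK G v a g i j ⟨u, hu⟩ then Equiv.swap (g (a i)) (g (a j)) (g ⟨u, hu⟩) else g ⟨u, hu⟩,
    hij, hinj, hn, dif_pos rfl, fun x => ⟨fun hx => ?_, fun hx => ?_⟩⟩
  · show (if hu : x.1 = v then g (a i) else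
      if KK G v a g i j ⟨x.1, hu⟩ then Equiv.swap (g (a i)) (g (a j)) (g ⟨x.1, hu⟩)
      else g ⟨x.1, hu⟩) = _
    rw [dif_neg x.2, if_pos hx]
  · show (if hu : x.1 = v then g (a i) else
      if KK G v a g i j ⟨x.1, hu⟩ then Equiv.swap (g (a i)) (g (a j)) (g ⟨x.1, hu⟩)
      else g ⟨x.1, hu⟩) = _
    rw [dif_neg x.2, if_neg hx]

/-- extension by a colour not used by the neighbours -/
lemma ext_proper (ha : ∀ u, G.Adj v u → ∃ k, (a k).1 = u) (g : {x : V // x ≠ v} → Fin 5)
    (hp : Proper (HH G v) g) (c : Fin 5) (hc : ∀ k, g (a k) ≠ c) :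
    ∃ y : V → Fin 5, Proper G y ∧ y v = c ∧ ∀ x : {x : V // x ≠ v}, y x.1 = g x := by
  classical
  have hy : ∀ x : {x : V // x ≠ v},
      (fun u => if hu : u = v then c else g ⟨u, hu⟩ : V → Fin 5) x.1 = g x := by
    intro x
    exact dif_neg x.2
  have hyv : (fun u => if hu : u = v then c else g ⟨u, hu⟩ : V → Fin 5) v = c := dif_pos rfl
  refine ⟨fun u => if hu : u = v then c else g ⟨u, hu⟩, ?_, hyv, hy⟩
  generalize (fun u => if hu : u = v then c else g ⟨u, hu⟩ : V → Fin 5) = y at hy hyv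
  intro p q hpq
  by_cases h1 : p = v
  · subst h1
    obtain ⟨k, hk⟩ := ha q hpq
    rw [hyv, ← hk, hy (a k)]
    exact (hc k).symm
  · by_cases h2 : q = v
    · subst h2
      obtain ⟨k, hk⟩ := ha p hpq.symm
      rw [hyv, ← hk, hy (a k)]
      exact hc k
    · have e1 := hy ⟨p, h1⟩
      have e2 := hy ⟨q, h2⟩
      have hadj : (G.comap (Subtype.val : {x : V // x ≠ v} → V)).Adj ⟨p, h1⟩ ⟨q, h2⟩ := hpq
      intro he
      exact hp _ _ hadj (e1.symm.trans (he.trans e2))

end

end Pool.Agent.Q262.BL
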