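import Pool.Agent.Q262.BL.Pairs

/-! Counting the extensions of a 5-colouring to a vertex of degree four or five. -/

set_option autoImplicit false

namespace Pool.Agent.Q262.BL

open Pool.Agent.Y865.RF Pool.Agent.H207R2.BL

lemma card_split {α : Type} [Finite α] (p : α → Prop) :
    Nat.card α = Nat.card {x : α // p x} + Nat.card {x : α // ¬ p x} := by
  classical
  rw [← Nat.card_sum]
  exact Nat.card_congr (Equiv.sumCompl p).symm

section

variable {V : Type} [Finite V] (G : SimpleGraph V) (v : V)

/-- the proper colourings without `v` -/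
abbrev PP : Type := {g : {x : V // x ≠ v} → Fin 5 // Proper (G.comap Subtype.val) g}

/-- the proper colourings -/
abbrev YY : Type := {y : V → Fin 5 // Proper G y}

/-- the restriction -/
def res (y : YY G) : PP G v := ⟨fun x => y.1 x.1, fun _ _ h => y.2 _ _ h⟩

lemma res_ext (y z : YY G) (h : res G v y = res G v z) (hv : y.1 v = z.1 v) : y = z := by
  apply Subtype.ext
  funext x
  by_cases hx : x = v
  · rw [hx, hv]
  · exact congrFun (congrArg Subtype.val h) ⟨x, hx⟩

lemma three_le (a : Fin 5 → {x : V // x ≠ v}) (hW : ¬ WK V G) (ha1 : ∀ k, G.Adj v (a k).1)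
    (ha2 : ∀ u, G.Adj v u → ∃ k, (a k).1 = u) :
    3 * Nat.card {g : PP G v // Function.Injective (fun k => g.1 (a k))} ≤
      Nat.card {g : PP G v // ¬ Function.Injective (fun k => g.1 (a k))} := by
  classical
  have hex : ∀ g : {g : PP G v // Function.Injective (fun k => g.1 (a k))},
      ∃ P : Fin 3 → Fin 5 × Fin 5, Function.Injective P ∧
        ∀ t, (P t).1 < (P t).2 ∧ ¬ KK G v a g.1.1 (P t).1 (P t).2 (a (P t).2) := by
    intro g
    exact three_pairs (fun i j => KK G v a g.1.1 i j (a j)) (fun i j h => KK_symm G v a _ i j h)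
      (fun e he => four G v a ha1 g.1.1 g.2 hW e he)
      (fun e he => wheel G v a ha1 g.1.1 g.2 hW e he)
  choose P hP1 hP2 using hex
  have hy : ∀ g : {g : PP G v // Function.Injective (fun k => g.1 (a k))}, ∀ t : Fin 3,
      ∃ y : V → Fin 5, RR G v a g.1.1 y (P g t).1 (P g t).2 := fun g t =>
    RR_exists G v a g.1.1 _ _ (hP2 g t).1 g.2 (hP2 g t).2
  choose y hy using hy
  let Y : ∀ g : {g : PP G v // Function.Injective (fun k => g.1 (a k))}, Fin 3 → YY G :=
    fun g t => ⟨y g t, RR_proper G v a ha2 g.1.1 _ _ _ g.1.2 (hy g t)⟩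
  let F : {g : PP G v // Function.Injective (fun k => g.1 (a k))} × Fin 3 →
      {g : PP G v // ¬ Function.Injective (fun k => g.1 (a k))} := fun p =>
    ⟨res G v (Y p.1 p.2), fun hinj => by
      have h1 := RR_eq G v a _ _ _ _ (hy p.1 p.2)
      exact (hP2 p.1 p.2).1.ne (hinj h1)⟩
  have hF : Function.Injective F := by
    rintro ⟨g, t⟩ ⟨h, s⟩ he
    have h1 : res G v (Y g t) = res G v (Y h s) := congrArg Subtype.val he
    have hag : ∀ x : {x : V // x ≠ v}, y g t x.1 = y h s x.1 := fun x =>
      congrFun (congrArg Subtype.val h1) x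
    have hv : y g t v = y h s v := by
      have hs : Function.Surjective (fun k => g.1.1 (a k)) :=
        Finite.injective_iff_surjective.1 g.2
      obtain ⟨k, hk⟩ := hs (y h s v)
      obtain ⟨u1, u2, u3, u4, u5⟩ := hy g t
      obtain ⟨v1, v2, v3⟩ := vals G v a g.1.1 (y g t) _ _ u2 u3 u5
      by_cases hki : k = (P g t).1
      · rw [u4, ← hki]
        exact hk
      · exfalso
        have hyk : y g t (a k).1 = g.1.1 (a k) := by
          by_cases hkj : k = (P g t).2
          · rw [hkj]
            exact v2
          · exact v3 k hki hkj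
        refine RR_new G v a h.1.1 (y h s) _ _ (hy h s) k ?_
        rw [← hag, hyk]
        exact hk
    have h2 : y g t = y h s := by
      have := res_ext G v (Y g t) (Y h s) h1 hv
      exact congrArg Subtype.val this
    have h3 := hy h s
    rw [← h2] at h3
    obtain ⟨e1, e2, e3⟩ := RR_inj G v a _ _ _ _ _ _ _ (hy g t) h3
    have hgh : g = h := Subtype.ext (Subtype.ext e3)
    subst hgh
    have : t = s := hP1 g (Prod.ext e1 e2)
    rw [this]
  have := Nat.card_le_card_of_injective F hF
  rw [Nat.card_prod, Nat.card_eq_fintype_card (α := Fin 3), Fintype.card_fin] at this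
  omega

/-- an enumeration of the neighbours -/
lemma enum {d : ℕ} (hd : (G.neighborSet v).ncard = d) : ∃ a : Fin d → {x : V // x ≠ v},
    (∀ k, G.Adj v (a k).1) ∧ ∀ u, G.Adj v u → ∃ k, (a k).1 = u := by
  have hcard : Nat.card (G.neighborSet v) = d := hd
  rcases Nat.eq_zero_or_pos d with h0 | h0
  · subst h0
    refine ⟨fun k => k.elim0, fun k => k.elim0, fun u hu => ?_⟩
    have : IsEmpty (G.neighborSet v) := by
      rcases Nat.card_eq_zero.1 hcard with h | h
      · exact h
      · exact absurd (inferInstance : Finite (G.neighborSet v)) (not_finite_iff_infinite.2 h)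
    exact (this.false ⟨u, hu⟩).elim
  · have : Finite (G.neighborSet v) := inferInstance
    have e : G.neighborSet v ≃ Fin d := Finite.equivFinOfCardEq hcard
    refine ⟨fun k => ⟨(e.symm k).1, (e.symm k).2.ne'⟩, fun k => (e.symm k).2, fun u hu => ?_⟩
    refine ⟨e ⟨u, hu⟩, ?_⟩
    change ((e.symm (e ⟨u, hu⟩)).1 : V) = u
    rw [Equiv.symm_apply_apply]

/-- At least three quarters of the colourings without a vertex of degree five extend. -/
theorem extend_five (hW : ¬ WK V G) (hd : (G.neighborSet v).ncard = 5) :
    3 * Nat.card (PP G v) ≤ 4 * Nat.card {g : PP G v // ∃ y : YY G, res G v y = g} := by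
  classical
  obtain ⟨a, ha1, ha2⟩ := enum G v hd
  have h1 := three_le G v a hW ha1 ha2
  have h2 := card_split (fun g : PP G v => Function.Injective (fun k => g.1 (a k)))
  have h3 : Nat.card {g : PP G v // ¬ Function.Injective (fun k => g.1 (a k))} ≤
      Nat.card {g : PP G v // ∃ y : YY G, res G v y = g} := by
    refine Nat.card_le_card_of_injective
      (fun g => ⟨g.1, ?_⟩) (fun g h he => Subtype.ext (congrArg (fun z => z.1) he))
    have hsurj : ¬ Function.Surjective (fun k => g.1.1 (a k)) := fun h =>
      g.2 (Finite.injective_iff_surjective.2 h)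
    obtain ⟨c, hc⟩ : ∃ c, ∀ k, g.1.1 (a k) ≠ c := by
      by_contra hcon
      push Not at hcon
      exact hsurj hcon
    obtain ⟨y, hy, _, hy'⟩ := ext_proper G v a ha2 g.1.1 g.1.2 c hc
    exact ⟨⟨y, hy⟩, Subtype.ext (funext hy')⟩
  omega

lemma card_ext_le : Nat.card {g : PP G v // ∃ y : YY G, res G v y = g} ≤ Nat.card (YY G) := by
  classical
  refine Nat.card_le_card_of_surjective (fun y : YY G => ⟨res G v y, y, rfl⟩) ?_
  rintro ⟨g, y, hy⟩
  exact ⟨y, Subtype.ext hy⟩

theorem ratio_five (hW : ¬ WK V G) (hd : (G.neighborSet v).ncard = 5) :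
    3 * Nat.card (PP G v) ≤ 4 * Nat.card (YY G) := by
  have h1 := extend_five G v hW hd
  have h2 := card_ext_le G v
  omega

lemma two_free (f : Fin 4 → Fin 5) (hf : ¬ Function.Injective f) :
    ∃ c : Bool → Fin 5, Function.Injective c ∧ ∀ b k, f k ≠ c b := by
  classical
  have h1 : (Finset.univ.image f).card < 4 := by
    have h2 : (Finset.univ.image f).card ≤ 4 := by
      simpa using Finset.card_image_le (s := (Finset.univ : Finset (Fin 4))) (f := f)
    refine lt_of_le_of_ne h2 fun h3 => hf ?_
    have h4 : Set.InjOn f (Finset.univ : Finset (Fin 4)) :=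
      Finset.card_image_iff.1 (by simpa using h3)
    intro x y hxy
    exact h4 (by simp) (by simp) hxy
  have h5 : 1 < (Finset.univ.image f)ᶜ.card := by
    rw [Finset.card_compl, Fintype.card_fin]
    omega
  obtain ⟨c, hc, c', hc', hne⟩ := Finset.one_lt_card.1 h5
  refine ⟨fun b => if b then c else c', ?_, ?_⟩
  · intro b b' hb
    cases b <;> cases b' <;> simp_all
  · intro b k h
    cases b
    · simp only [Bool.false_eq_true, if_false] at h
      exact (Finset.mem_compl.1 hc') (h ▸ Finset.mem_image_of_mem f (Finset.mem_univ k))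
    · simp only [if_true] at h
      exact (Finset.mem_compl.1 hc) (h ▸ Finset.mem_image_of_mem f (Finset.mem_univ k))

theorem ratio_four (hW : ¬ WK V G) (hd : (G.neighborSet v).ncard = 4) :
    4 * Nat.card (PP G v) ≤ 3 * Nat.card (YY G) := by
  classical
  obtain ⟨a, ha1, ha2⟩ := enum G v hd
  have hP := card_split (fun g : PP G v => Function.Injective (fun k => g.1 (a k)))
  have hY := card_split (fun y : YY G => Function.Injective (fun k => y.1 (a k).1))
  -- an injective colouring of the neighbours extends
  have h1 : Nat.card {g : PP G v // Function.Injective (fun k => g.1 (a k))} ≤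
      Nat.card {y : YY G // Function.Injective (fun k => y.1 (a k).1)} := by
    have hex : ∀ g : {g : PP G v // Function.Injective (fun k => g.1 (a k))},
        ∃ y : YY G, res G v y = g.1 := by
      intro g
      obtain ⟨c, hc⟩ : ∃ c, ∀ k, g.1.1 (a k) ≠ c := by
        by_contra hcon
        push Not at hcon
        have := Fintype.card_le_of_surjective (fun k => g.1.1 (a k)) hcon
        simp at this
      obtain ⟨y, hy, _, hy'⟩ := ext_proper G v a ha2 g.1.1 g.1.2 c hc
      exact ⟨⟨y, hy⟩, Subtype.ext (funext hy')⟩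
    choose y hy using hex
    refine Nat.card_le_card_of_injective (fun g => ⟨y g, ?_⟩) ?_
    · have h2 := g.2
      rw [← hy g] at h2
      exact h2
    · intro g h he
      have h3 : y g = y h := congrArg Subtype.val he
      apply Subtype.ext
      rw [← hy g, ← hy h, h3]
  -- a non-injective one has two extensions
  have h2 : 2 * Nat.card {g : PP G v // ¬ Function.Injective (fun k => g.1 (a k))} ≤
      Nat.card {y : YY G // ¬ Function.Injective (fun k => y.1 (a k).1)} := by
    have hex : ∀ g : {g : PP G v // ¬ Function.Injective (fun k => g.1 (a k))},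
        ∃ y : Bool → YY G, (∀ b, res G v (y b) = g.1) ∧ Function.Injective y := by
      intro g
      obtain ⟨c, hc1, hc2⟩ := two_free _ g.2
      have : ∀ b, ∃ y : YY G, res G v y = g.1 ∧ y.1 v = c b := by
        intro b
        obtain ⟨y, hy, hy1, hy'⟩ := ext_proper G v a ha2 g.1.1 g.1.2 (c b) (hc2 b)
        exact ⟨⟨y, hy⟩, Subtype.ext (funext hy'), hy1⟩
      choose y hy using this
      refine ⟨y, fun b => (hy b).1, fun b b' hb => hc1 ?_⟩
      rw [← (hy b).2, ← (hy b').2, hb]
    choose y hy hyi using hex
    have := Nat.card_le_card_of_injective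
      (fun p : {g : PP G v // ¬ Function.Injective (fun k => g.1 (a k))} × Bool =>
        (⟨y p.1 p.2, by
          have h2 := p.1.2
          rw [← hy p.1 p.2] at h2
          exact h2⟩ : {y : YY G // ¬ Function.Injective (fun k => y.1 (a k).1)})) (by
        rintro ⟨g, b⟩ ⟨h, b'⟩ he
        have h3 : y g b = y h b' := congrArg Subtype.val he
        have h4 : g = h := by
          apply Subtype.ext
          rw [← hy g b, ← hy h b', h3]
        subst h4
        rw [hyi g h3])
    rw [Nat.card_prod, Nat.card_eq_fintype_card (α := Bool), Fintype.card_bool] at this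
    omega
  -- Kempe changes
  have h3 : Nat.card {g : PP G v // Function.Injective (fun k => g.1 (a k))} ≤
      Nat.card {y : YY G // ¬ Function.Injective (fun k => y.1 (a k).1)} := by
    have hex : ∀ g : {g : PP G v // Function.Injective (fun k => g.1 (a k))},
        ∃ (i j : Fin 4) (y : V → Fin 5), RR G v a g.1.1 y i j := by
      intro g
      obtain ⟨p, q, hpq, hn⟩ := four G v a ha1 g.1.1 g.2 hW id Function.injective_id
      obtain ⟨y, hy⟩ := RR_exists G v a g.1.1 p q hpq g.2 hn
      exact ⟨p, q, y, hy⟩
    choose i j y hy using hex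
    refine Nat.card_le_card_of_injective
      (fun g => ⟨⟨y g, RR_proper G v a ha2 g.1.1 _ _ _ g.1.2 (hy g)⟩, fun hinj =>
        (hy g).1.ne (hinj (RR_eq G v a _ _ _ _ (hy g)))⟩) ?_
    intro g h he
    have h4 : y g = y h := congrArg (fun z => z.1.1) he
    have h5 := hy h
    rw [← h4] at h5
    exact Subtype.ext (Subtype.ext (RR_inj G v a _ _ _ _ _ _ _ (hy g) h5).2.2)
  omega

end

end Pool.Agent.Q262.BL
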