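import Pool.Agent.Q262.BL.Near

/-! Complex values near five. -/

set_option autoImplicit false
set_option linter.unusedSectionVars false

namespace Pool.Agent.Q262.BL

open Polynomial Pool.Agent.Y865.RF Pool.Agent.H207R2.BL

theorem disc_main (z : ℂ) (x : ℝ) (hx : 1 ≤ x) (hx2 : 4 * ‖z - 5‖ * x ≤ 3 * (x ^ 2 - 1)) :
    ∀ (n : ℕ) (V : Type) [Finite V] (G : SimpleGraph V), Nat.card V = n → ¬ WK V G →
      ‖aeval z (chr G) - (((chr G).eval 5 : ℝ) : ℂ)‖ ≤ (x ^ n - 1) * (chr G).eval 5 := by
  have hδ : 0 ≤ ‖z - 5‖ := norm_nonneg _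
  intro n
  induction n using Nat.strong_induction_on with
  | _ n ih =>
    intro V _ G hn hG
    rcases isEmpty_or_nonempty V with he | hne
    · rw [chr_empty]
      have h0 : n = 0 := by
        rw [← hn]
        exact Nat.card_of_isEmpty
      subst h0
      simp
    · obtain ⟨v, hv⟩ := t_deg V G hG
      have hc := card_sub v
      have hn1 : 1 ≤ n := by omega
      have hR := ratio G hG v hv
      set H : SimpleGraph {x : V // x ≠ v} := G.comap Subtype.val with hH
      have hHW : ¬ WK _ H := mc.vertex V G v hG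
      have hH5 := five_pos t_kempe t_deg H hHW
      have hHz := ih (n - 1) (by omega) _ H (by omega) hHW
      obtain ⟨D, hD, hGD⟩ := exp_at (fun V G => ¬ WK V G) mc V G v hG
        (fun p => 0 ≤ p.eval 5 ∧ ‖aeval z p - ((p.eval 5 : ℝ) : ℂ)‖ ≤ (x ^ (n - 2) - 1) * p.eval 5)
        (by simp)
        (by
          rintro a b ⟨ha, ha'⟩ ⟨hb, hb'⟩
          refine ⟨by rw [eval_add]; exact add_nonneg ha hb, ?_⟩
          rw [map_add, eval_add]
          push_cast
          have : aeval z a + aeval z b - (((a.eval 5 : ℝ) : ℂ) + ((b.eval 5 : ℝ) : ℂ)) =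
              (aeval z a - ((a.eval 5 : ℝ) : ℂ)) + (aeval z b - ((b.eval 5 : ℝ) : ℂ)) := by ring
          rw [this]
          refine (norm_add_le _ _).trans ?_
          rw [mul_add]
          exact add_le_add ha' hb')
        (by
          intro w M hM
          have hc2 := card_sub w
          exact ⟨(five_pos t_kempe t_deg M hM).le, ih (n - 2) (by omega) _ M (by omega) hM⟩)
      obtain ⟨hD5, hDz⟩ := hD
      set d := (G.neighborSet v).ncard with hdd
      have e5 : (chr G).eval 5 = (5 - d) * (chr H).eval 5 + D.eval 5 := by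
        rw [hGD, eval_add, eval_mul, eval_sub, eval_X, eval_C]
      have ez : aeval z (chr G) = (z - d) * aeval z (chr H) + aeval z D := by
        rw [hGD, map_add, map_mul, map_sub, aeval_X, aeval_C, map_natCast]
      have hd5 : (d : ℝ) ≤ 5 := by exact_mod_cast hv
      have hs : (0 : ℝ) ≤ 5 - d := by linarith
      have hHn : ‖aeval z (chr H)‖ ≤ x ^ (n - 1) * (chr H).eval 5 := by
        have h1 : aeval z (chr H) = (aeval z (chr H) - (((chr H).eval 5 : ℝ) : ℂ)) +
            (((chr H).eval 5 : ℝ) : ℂ) := by ring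
        rw [h1]
        refine (norm_add_le _ _).trans ?_
        rw [Complex.norm_real, Real.norm_of_nonneg hH5.le]
        linarith
      have split : aeval z (chr G) - (((chr G).eval 5 : ℝ) : ℂ) =
          (z - 5) * aeval z (chr H) +
            ((5 : ℂ) - d) * (aeval z (chr H) - (((chr H).eval 5 : ℝ) : ℂ)) +
            (aeval z D - ((D.eval 5 : ℝ) : ℂ)) := by
        rw [ez, e5]
        push_cast
        ring
      have hb1 : ‖(z - 5) * aeval z (chr H)‖ ≤ ‖z - 5‖ * (x ^ (n - 1) * (chr H).eval 5) := by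
        rw [norm_mul]
        exact mul_le_mul_of_nonneg_left hHn hδ
      have hnorm : ‖((5 : ℂ) - d)‖ = 5 - d := by
        have h1 : ((5 : ℂ) - d) = (((5 : ℝ) - d : ℝ) : ℂ) := by push_cast; ring
        rw [h1, Complex.norm_real, Real.norm_of_nonneg hs]
      have hb2 : ‖((5 : ℂ) - d) * (aeval z (chr H) - (((chr H).eval 5 : ℝ) : ℂ))‖ ≤
          (5 - d) * ((x ^ (n - 1) - 1) * (chr H).eval 5) := by
        rw [norm_mul, hnorm]
        exact mul_le_mul_of_nonneg_left hHz hs
      have hsum : ‖aeval z (chr G) - (((chr G).eval 5 : ℝ) : ℂ)‖ ≤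
          ‖z - 5‖ * (x ^ (n - 1) * (chr H).eval 5) +
          (5 - d) * ((x ^ (n - 1) - 1) * (chr H).eval 5) +
          (x ^ (n - 2) - 1) * D.eval 5 := by
        rw [split]
        refine (norm_add_le _ _).trans (add_le_add ((norm_add_le _ _).trans (add_le_add hb1 hb2)) hDz)
      refine hsum.trans ?_
      rw [e5] at hR ⊢
      generalize (chr H).eval 5 = hA at *
      generalize D.eval 5 = D5 at *
      rcases Nat.lt_or_ge n 2 with hlt | hge
      · have h1 : n = 1 := by omega
        have hd1 : (d : ℝ) ≤ 1 := by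
          have h2 : (G.neighborSet v).ncard ≤ Nat.card V := by
            rw [← Set.ncard_univ]
            exact Set.ncard_le_ncard (Set.subset_univ _)
          have h3 : d ≤ 1 := by omega
          exact_mod_cast h3
        subst h1
        simp only [Nat.sub_self, pow_zero, pow_one, one_mul, sub_self, zero_mul, mul_zero, add_zero]
        have e1 : (1 : ℕ) - 2 = 0 := rfl
        rw [e1, pow_zero, sub_self, zero_mul, add_zero]
        have hr : 2 * ‖z - 5‖ ≤ 3 * (x - 1) := by
          by_contra hcon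
          push Not at hcon
          nlinarith
        have k1 : 0 ≤ (x - 1) * D5 := mul_nonneg (by linarith) hD5
        have k2 : 0 ≤ hA * (3 * (x - 1) - 2 * ‖z - 5‖) := mul_nonneg hH5.le (by linarith)
        have k3 : 0 ≤ (1 - (d : ℝ)) * ((x - 1) * hA) :=
          mul_nonneg (by linarith) (mul_nonneg (by linarith) hH5.le)
        have k4 : 0 ≤ (x - 1) * hA := mul_nonneg (by linarith) hH5.le
        linarith
      · obtain ⟨m, rfl⟩ : ∃ m, n = m + 2 := ⟨n - 2, by omega⟩
        have s1 : m + 2 - 1 = m + 1 := by omega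
        have s2 : m + 2 - 2 = m := by omega
        rw [s1, s2]
        have hX : 0 ≤ x ^ m := (pow_pos (by linarith) m).le
        have hx2' : 0 ≤ x ^ 2 - 1 := by nlinarith
        have t1 : 0 ≤ (x ^ 2 - 1) * (4 * ((5 - d) * hA + D5) - (2 * (5 - (d : ℝ)) + 3) * hA) :=
          mul_nonneg hx2' (by linarith)
        have t2 : 0 ≤ (5 - (d : ℝ)) * hA * (x - 1) ^ 2 :=
          mul_nonneg (mul_nonneg hs hH5.le) (sq_nonneg _)
        have t3 : 0 ≤ hA * (3 * (x ^ 2 - 1) - 4 * ‖z - 5‖ * x) := mul_nonneg hH5.le (by linarith)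
        have hE : 0 ≤ (5 - (d : ℝ)) * hA * (x ^ 2 - x) + D5 * (x ^ 2 - 1) - ‖z - 5‖ * x * hA := by
          linarith
        have hfin := mul_nonneg hX hE
        rw [pow_succ, pow_add]
        linarith

theorem exp_cond' (r : ℝ) (hr : 0 ≤ r) :
    1 ≤ Real.exp (2 * r / 3) ∧
      4 * r * Real.exp (2 * r / 3) ≤ 3 * (Real.exp (2 * r / 3) ^ 2 - 1) := by
  have h1 : 1 ≤ Real.exp (2 * r / 3) := Real.one_le_exp (by positivity)
  refine ⟨h1, ?_⟩
  have h2 : 2 * r / 3 ≤ Real.sinh (2 * r / 3) := Real.self_le_sinh_iff.2 (by positivity)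
  rw [Real.sinh_eq] at h2
  have h3 : Real.exp (2 * r / 3) * Real.exp (-(2 * r / 3)) = 1 := by
    rw [← Real.exp_add]
    simp
  have h4 : 0 < Real.exp (2 * r / 3) := Real.exp_pos _
  have h5 : 4 * r ≤ 3 * (Real.exp (2 * r / 3) - Real.exp (-(2 * r / 3))) := by linarith
  have h6 := mul_le_mul_of_nonneg_left h5 h4.le
  nlinarith

theorem disc {V : Type} [Finite V] (G : SimpleGraph V) (hG : ¬ WK V G) (z : ℂ) :
    ‖aeval z (chr G) - (((chr G).eval 5 : ℝ) : ℂ)‖ ≤
      (Real.exp (2 * ‖z - 5‖ * Nat.card V / 3) - 1) * (chr G).eval 5 := by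
  obtain ⟨h1, h2⟩ := exp_cond' ‖z - 5‖ (norm_nonneg _)
  have h3 := disc_main z (Real.exp (2 * ‖z - 5‖ / 3)) h1 h2 _ V G rfl hG
  have h6 : Real.exp (2 * ‖z - 5‖ / 3) ^ (Nat.card V) =
      Real.exp (2 * ‖z - 5‖ * Nat.card V / 3) := by
    rw [← Real.exp_nat_mul]
    congr 1
    ring
  rw [h6] at h3
  exact h3

theorem disc_ne {V : Type} [Finite V] (G : SimpleGraph V) (hG : ¬ WK V G) (z : ℂ)
    (hz : 2 * Nat.card V * ‖z - 5‖ < 3 * Real.log 2) : aeval z (chr G) ≠ 0 := by
  intro h0
  have h3 := disc G hG z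
  have h5 := five_pos t_kempe t_deg G hG
  rw [h0, zero_sub, norm_neg, Complex.norm_real, Real.norm_of_nonneg h5.le] at h3
  have h6 : Real.exp (2 * ‖z - 5‖ * Nat.card V / 3) < 2 := by
    calc Real.exp (2 * ‖z - 5‖ * Nat.card V / 3) < Real.exp (Real.log 2) := by
          apply Real.exp_lt_exp.2
          linarith
      _ = 2 := Real.exp_log (by norm_num)
  nlinarith

end Pool.Agent.Q262.BL
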