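import Pool.Agent.Q262.BL.Disc
import Pool.Agent.Q262.BL.Big

/-! Positivity in terms of the largest minor of minimum degree five. -/

set_option autoImplicit false
set_option linter.unusedSectionVars false

namespace Pool.Agent.Q262.BL

open Polynomial Pool.Agent.Y865.RF Pool.Agent.H207R2.BL

theorem big_closed (k : ℕ) : MinorClosed (fun _ G => ¬ WK _ G ∧ BigDegLe k 4 G) where
  edge V G H h hG := ⟨mc.edge V G H h hG.1, bigDeg_edge k 4 G H h hG.2⟩
  vertex V G v hG := ⟨mc.vertex V G v hG.1, bigDeg_vertex k 4 G v hG.2⟩
  contr V G u v h hG := ⟨mc.contr V G u v h hG.1, bigDeg_contr k 4 G u v h hG.2⟩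

theorem big_pos (k : ℕ) (q : ℝ) (hq : 4 < q) (hk : 2 * k * (5 - q) < 3) :
    ∀ (n : ℕ) (V : Type) [Finite V] (G : SimpleGraph V), Nat.card V = n → ¬ WK V G →
      BigDegLe k 4 G → 0 < (chr G).eval q := by
  intro n
  induction n using Nat.strong_induction_on with
  | _ n ih =>
    intro V _ G hn hG hB
    rcases isEmpty_or_nonempty V with he | hne
    · rw [chr_empty]
      simp
    · rcases le_or_gt 5 q with h5 | h5
      · rcases eq_or_lt_of_le h5 with h | h
        · rw [← h]
          exact five_pos t_kempe t_deg G hG
        · exact minor_pos (fun V G => ¬ WK V G) mc 5 (fun V _ _ G hG => t_deg V G hG) q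
            (by exact_mod_cast h) G hG
      · rcases Nat.lt_or_ge k n with hkn | hkn
        · obtain ⟨v, hv⟩ := bigDeg_exists k 4 G (by omega) hB
          have hc := card_sub v
          have hH := ih (n - 1) (by omega) _ (G.comap (Subtype.val : {x : V // x ≠ v} → V))
            (by omega) (mc.vertex V G v hG) (bigDeg_vertex k 4 G v hB)
          obtain ⟨D, hD, hGD⟩ := exp_at (fun V G => ¬ WK V G ∧ BigDegLe k 4 G) (big_closed k) V G v
            ⟨hG, hB⟩ (fun p => 0 ≤ p.eval q) (by simp)
            (by
              intro a b ha hb
              rw [eval_add]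
              exact add_nonneg ha hb)
            (by
              intro w M hM
              have hc2 := card_sub w
              exact (ih (n - 2) (by omega) _ M (by omega) hM.1 hM.2).le)
          rw [hGD, eval_add, eval_mul, eval_sub, eval_X, eval_C]
          have hv4 : ((G.neighborSet v).ncard : ℝ) ≤ 4 := by exact_mod_cast hv
          have := mul_pos (show 0 < q - ((G.neighborSet v).ncard : ℝ) by linarith) hH
          linarith
        · have hnk : (n : ℝ) ≤ k := by exact_mod_cast hkn
          have hδ : 0 < 5 - q := by linarith
          have h1 : 2 * (n : ℝ) * (5 - q) < 3 := by nlinarith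
          have h2 := (near (5 - q) hδ.le (by linarith) n V G hn hG h1.le).1
          have h3 : (5 : ℝ) - (5 - q) = q := by ring
          rw [h3] at h2
          have h4 : 0 < 1 - 2 / 3 * (n : ℝ) * (5 - q) := by linarith
          have h6 := mul_pos h4 (five_pos t_kempe t_deg G hG)
          linarith

/-- no minor has more vertices than the graph -/
theorem big_card {V : Type} [Finite V] (G : SimpleGraph V) (d : ℕ) :
    BigDegLe (Nat.card V) d G := by
  intro m B hm hB hd
  exfalso
  have hne : ∀ i, ∃ x, x ∈ B i := fun i => (hB i).1
  choose x hx using hne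
  have hinj : Function.Injective x := by
    intro i j hij
    by_contra hne
    exact Set.disjoint_left.1 (hd i j hne) (hx i) (hij ▸ hx j)
  have := Nat.card_le_card_of_injective x hinj
  rw [Nat.card_eq_fintype_card (α := Fin m), Fintype.card_fin] at this
  omega

end Pool.Agent.Q262.BL
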