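import Pool.Agent.Q262.BL.Count
import Pool.Agent.Y865.RF.Fin

/-! The chromatic polynomial near five, with the improved Kempe ratios. -/

set_option autoImplicit false
set_option linter.unusedSectionVars false

namespace Pool.Agent.Q262.BL

open Polynomial Pool.Agent.Y865.RF Pool.Agent.H207R2.BL

/-- the ratio inequality, in terms of the degree -/
theorem ratio {V : Type} [Finite V] (G : SimpleGraph V) (hG : ¬ WK V G) (v : V)
    (hv : (G.neighborSet v).ncard ≤ 5) :
    (2 * (5 - ((G.neighborSet v).ncard : ℝ)) + 3) *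
      (chr (G.comap (Subtype.val : {x : V // x ≠ v} → V))).eval 5 ≤ 4 * (chr G).eval 5 := by
  have hHW : ¬ WK _ (G.comap (Subtype.val : {x : V // x ≠ v} → V)) := mc.vertex V G v hG
  have hH5 := five_pos t_kempe t_deg _ hHW
  have c1 := chr_eval_nat G 5
  have c2 := chr_eval_nat (G.comap (Subtype.val : {x : V // x ≠ v} → V)) 5
  rw [Nat.cast_ofNat] at c1 c2
  rcases Nat.lt_or_ge (G.neighborSet v).ncard 4 with h4 | h4
  · obtain ⟨D, hD, hGD⟩ := exp_at (fun V G => ¬ WK V G) mc V G v hG (fun p => 0 ≤ p.eval 5)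
      (by simp) (by
        intro a b ha hb
        rw [eval_add]
        exact add_nonneg ha hb)
      (by
        intro w M hM
        exact (five_pos t_kempe t_deg M hM).le)
    have e5 : (chr G).eval 5 = (5 - ((G.neighborSet v).ncard : ℝ)) *
        (chr (G.comap (Subtype.val : {x : V // x ≠ v} → V))).eval 5 + D.eval 5 := by
      rw [hGD, eval_add, eval_mul, eval_sub, eval_X, eval_C]
    have hd3 : ((G.neighborSet v).ncard : ℝ) ≤ 3 := by
      have : (G.neighborSet v).ncard ≤ 3 := by omega
      exact_mod_cast this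
    nlinarith
  · rcases Nat.eq_or_lt_of_le h4 with h4' | h5
    · have h := ratio_four G v hG h4'.symm
      have h' : (4 : ℝ) * Nat.card (PP G v) ≤ 3 * Nat.card (YY G) := by exact_mod_cast h
      have hd : ((G.neighborSet v).ncard : ℝ) = 4 := by rw [← h4']; norm_num
      rw [c1, c2, hd]
      have hp : (0 : ℝ) ≤ Nat.card (PP G v) := Nat.cast_nonneg _
      change (2 * (5 - 4) + 3) * (Nat.card (PP G v) : ℝ) ≤ 4 * (Nat.card (YY G) : ℝ)
      linarith
    · have h5' : (G.neighborSet v).ncard = 5 := by omega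
      have h := ratio_five G v hG h5'
      have h' : (3 : ℝ) * Nat.card (PP G v) ≤ 4 * Nat.card (YY G) := by exact_mod_cast h
      have hd : ((G.neighborSet v).ncard : ℝ) = 5 := by rw [h5']; norm_num
      rw [c1, c2, hd]
      change (2 * (5 - 5) + 3) * (Nat.card (PP G v) : ℝ) ≤ 4 * (Nat.card (YY G) : ℝ)
      linarith

theorem near (δ : ℝ) (hδ : 0 ≤ δ) (hδ1 : δ ≤ 1) :
    ∀ (n : ℕ) (V : Type) [Finite V] (G : SimpleGraph V), Nat.card V = n → ¬ WK V G →
      2 * n * δ ≤ 3 →
        (1 - 2 / 3 * n * δ) * (chr G).eval 5 ≤ (chr G).eval (5 - δ) ∧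
        (chr G).eval (5 - δ) ≤ (chr G).eval 5 := by
  intro n
  induction n using Nat.strong_induction_on with
  | _ n ih =>
    intro V _ G hn hG hnδ
    rcases isEmpty_or_nonempty V with he | hne
    · rw [chr_empty]
      have h0 : n = 0 := by
        rw [← hn]
        exact Nat.card_of_isEmpty
      subst h0
      simp
    · obtain ⟨v, hv⟩ := t_deg V G hG
      have hc := card_sub v
      have hn1 : 1 ≤ n := by omega
      have hR := ratio G hG v hv
      set H : SimpleGraph {x : V // x ≠ v} := G.comap Subtype.val with hH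
      have hHW : ¬ WK _ H := mc.vertex V G v hG
      have hcast1 : ((n - 1 : ℕ) : ℝ) = (n : ℝ) - 1 := by
        rw [Nat.cast_sub hn1, Nat.cast_one]
      have hHq := ih (n - 1) (by omega) _ H (by omega) hHW (by rw [hcast1]; nlinarith)
      rw [hcast1] at hHq
      obtain ⟨h1, h2⟩ := hHq
      have hH5 : 0 < (chr H).eval 5 := five_pos t_kempe t_deg _ hHW
      obtain ⟨D, ⟨hD5, h3, h4⟩, hGD⟩ := exp_at (fun V G => ¬ WK V G) mc V G v hG
        (fun p => 0 ≤ p.eval 5 ∧ (1 - 2 / 3 * ((n : ℝ) - 2) * δ) * p.eval 5 ≤ p.eval (5 - δ) ∧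
          p.eval (5 - δ) ≤ p.eval 5) (by simp)
        (by
          rintro a b ⟨ha, h1, h2⟩ ⟨hb, h3, h4⟩
          refine ⟨by rw [eval_add]; exact add_nonneg ha hb, ?_⟩
          rw [eval_add, eval_add]
          constructor <;> linarith)
        (by
          intro w M hM
          have hc2 := card_sub w
          have hn2 : 2 ≤ n := by omega
          have hcast2 : ((n - 2 : ℕ) : ℝ) = (n : ℝ) - 2 := by
            rw [Nat.cast_sub hn2, Nat.cast_ofNat]
          obtain ⟨h1, h2⟩ := ih (n - 2) (by omega) _ M (by omega) hM (by rw [hcast2]; nlinarith)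
          rw [hcast2] at h1
          exact ⟨(five_pos t_kempe t_deg M hM).le, h1, h2⟩)
      set d := (G.neighborSet v).ncard with hdd
      have e5 : (chr G).eval 5 = (5 - d) * (chr H).eval 5 + D.eval 5 := by
        rw [hGD, eval_add, eval_mul, eval_sub, eval_X, eval_C]
      have eq : (chr G).eval (5 - δ) = (5 - δ - d) * (chr H).eval (5 - δ) + D.eval (5 - δ) := by
        rw [hGD, eval_add, eval_mul, eval_sub, eval_X, eval_C]
      have hn1' : (1 : ℝ) ≤ n := by exact_mod_cast hn1
      have hL0 : 0 ≤ 1 - 2 / 3 * ((n : ℝ) - 1) * δ := by nlinarith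
      have hL1 : 0 ≤ 2 / 3 * ((n : ℝ) - 1) * δ := by
        have : 0 ≤ ((n : ℝ) - 1) * δ := mul_nonneg (by linarith) hδ
        linarith
      have h6 : 0 ≤ (chr H).eval (5 - δ) := le_trans (mul_nonneg hL0 hH5.le) h1
      generalize (chr H).eval 5 = hA at *
      generalize (chr H).eval (5 - δ) = hB at *
      generalize D.eval 5 = D5 at *
      generalize D.eval (5 - δ) = DB at *
      rw [e5] at hR
      rw [e5, eq]
      have k4 : 0 ≤ δ * (4 * ((5 - d) * hA + D5) - (2 * (5 - (d : ℝ)) + 3) * hA) :=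
        mul_nonneg hδ (by linarith)
      rcases lt_or_eq_of_le hv with hlt | heq
      · have hd4 : (d : ℝ) ≤ 4 := by
          have : d ≤ 4 := by omega
          exact_mod_cast this
        have hs : 0 ≤ 5 - δ - (d : ℝ) := by linarith
        have k1 := mul_le_mul_of_nonneg_left h1 hs
        have k3 : 0 ≤ δ * (hA * (2 / 3 * ((n : ℝ) - 1) * δ)) :=
          mul_nonneg hδ (mul_nonneg hH5.le hL1)
        constructor
        · linarith
        · have k5 := mul_le_mul_of_nonneg_left h2 hs
          have k6 : 0 ≤ δ * hA := mul_nonneg hδ hH5.le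
          linarith
      · have hd5 : (d : ℝ) = 5 := by exact_mod_cast heq
        rw [hd5] at k4 ⊢
        have k1 := mul_le_mul_of_nonneg_left h2 hδ
        have k6 : 0 ≤ δ * hB := mul_nonneg hδ h6
        constructor
        · linarith
        · linarith

end Pool.Agent.Q262.BL
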