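import Pool.Agent.Q262.BL.Change
import Pool.Agent.Y865.RF.PL

/-! Pairs of neighbours which are not joined by a Kempe chain. -/

set_option autoImplicit false

namespace Pool.Agent.Q262.BL

open Pool.Agent.Y865.RF Pool.Agent.H207R2.BL

section

variable {V : Type} {d : ℕ} (G : SimpleGraph V) (v : V) (a : Fin d → {x : V // x ≠ v})

/-- the vertices with a colour of the set `U` of indices -/
def CC {m : ℕ} (g : {x : V // x ≠ v} → Fin 5) (e : Fin m → Fin d) (U : Finset (Fin m)) :
    Set {x : V // x ≠ v} := {x | ∃ k ∈ U, g x = g (a (e k))}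

/-- the sets of the weak `K₅` -/
def AA {m : ℕ} (g : {x : V // x ≠ v} → Fin 5) (e : Fin m → Fin d) (τ : Fin 4 → Fin m)
    (U : Fin 4 → Fin 4 → Finset (Fin m)) (p q : Fin 5) : Set V :=
  Fin.cases (motive := fun _ => Set V)
    (Fin.cases (motive := fun _ => Set V) ∅ (fun q' => {v, (a (e (τ q'))).1}) q)
    (fun p' => Fin.cases (motive := fun _ => Set V) ∅
      (fun q' => Subtype.val '' CC v a g e (U p' q')) q) p

lemma wk_of {m : ℕ} (ha : ∀ k, G.Adj v (a k).1) (g : {x : V // x ≠ v} → Fin 5)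
    (hinj : Function.Injective (fun k => g (a k))) (e : Fin m → Fin d)
    (he : Function.Injective e) (τ : Fin 4 → Fin m) (U : Fin 4 → Fin 4 → Finset (Fin m))
    (h1 : ∀ p q r : Fin 4, p < q → r ≠ p → r ≠ q → τ r ∉ U p q)
    (h2 : ∀ p q r s : Fin 4, p < q → r < s → p ≠ r → p ≠ s → q ≠ r → q ≠ s →
      Disjoint (U p q) (U r s))
    (hT : ∀ p q : Fin 4, p < q →
      Cn (HH G v) (CC v a g e (U p q)) (a (e (τ p))) (a (e (τ q)))) : WK V G := by
  classical
  have hcol : ∀ k l : Fin m, g (a (e k)) = g (a (e l)) → k = l := fun k l h => he (hinj h)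
  have hA : ∀ (q' : Fin 4) (r s : Fin 4), r < s → q' ≠ r → q' ≠ s →
      Disjoint ({v, (a (e (τ q'))).1} : Set V) (Subtype.val '' CC v a g e (U r s)) := by
    intro q' r s hrs hqr hqs
    rw [Set.disjoint_left]
    rintro z (hz | hz) ⟨x, hx, hxz⟩
    · exact x.2 (hxz.trans hz)
    · have hz' : z = (a (e (τ q'))).1 := hz
      have hx' : x = a (e (τ q')) := Subtype.ext (hxz.trans hz')
      subst hx'
      obtain ⟨k, hk, hk'⟩ := hx
      have := hcol _ _ hk'
      rw [← this] at hk
      exact h1 r s q' hrs hqr hqs hk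
  refine ⟨Fin.cons v (fun p => (a (e (τ p))).1), AA v a g e τ U, ?_, ?_⟩
  · intro p q hpq
    induction q using Fin.cases with
    | zero => exact absurd hpq (Fin.not_lt_zero p)
    | succ q' =>
      induction p using Fin.cases with
      | zero =>
        change Cn G ({v, (a (e (τ q'))).1} : Set V) v (a (e (τ q'))).1
        exact Cn.adj (ha (e (τ q'))) (by simp) (by simp)
      | succ p' =>
        have hpq' : p' < q' := Fin.succ_lt_succ_iff.1 hpq
        change Cn G (Subtype.val '' CC v a g e (U p' q')) (a (e (τ p'))).1 (a (e (τ q'))).1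
        refine (hT p' q' hpq').transport Subtype.val ?_ ?_
        · intro x y hx hy hxy
          exact Cn.adj hxy ⟨x, hx, rfl⟩ ⟨y, hy, rfl⟩
        · intro x hx
          exact ⟨x, hx, rfl⟩
  · intro p q r s hpq hrs e1 e2 e3 e4
    induction q using Fin.cases with
    | zero => exact absurd hpq (Fin.not_lt_zero p)
    | succ q' =>
      induction s using Fin.cases with
      | zero => exact absurd hrs (Fin.not_lt_zero r)
      | succ s' =>
        have hqs : q' ≠ s' := fun h => e4 (by rw [h])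
        induction p using Fin.cases with
        | zero =>
          induction r using Fin.cases with
          | zero => exact absurd rfl e1
          | succ r' =>
            have hrs' : r' < s' := Fin.succ_lt_succ_iff.1 hrs
            have hqr : q' ≠ r' := fun h => e3 (by rw [h])
            exact hA q' r' s' hrs' hqr hqs
        | succ p' =>
          have hpq' : p' < q' := Fin.succ_lt_succ_iff.1 hpq
          have hps : p' ≠ s' := fun h => e2 (by rw [h])
          induction r using Fin.cases with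
          | zero => exact (hA s' p' q' hpq' hps.symm hqs.symm).symm
          | succ r' =>
            have hrs' : r' < s' := Fin.succ_lt_succ_iff.1 hrs
            have hqr : q' ≠ r' := fun h => e3 (by rw [h])
            have hpr : p' ≠ r' := fun h => e1 (by rw [h])
            have hd := h2 p' q' r' s' hpq' hrs' hpr hps hqr hqs
            change Disjoint (Subtype.val '' CC v a g e (U p' q'))
              (Subtype.val '' CC v a g e (U r' s'))
            rw [Set.disjoint_left]
            rintro z ⟨x, ⟨k, hk, hk'⟩, hxz⟩ ⟨x', ⟨l, hl, hl'⟩, hxz'⟩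
            have hx : x = x' := Subtype.ext (hxz.trans hxz'.symm)
            subst hx
            have := hcol _ _ (hk'.symm.trans hl')
            subst this
            exact Finset.disjoint_left.1 hd hk hl

lemma cc_pair {m : ℕ} (g : {x : V // x ≠ v} → Fin 5) (e : Fin m → Fin d) (U : Finset (Fin m))
    (k l : Fin m) (hk : k ∈ U) (hl : l ∈ U) (h : KK G v a g (e k) (e l) (a (e l))) :
    Cn (HH G v) (CC v a g e U) (a (e k)) (a (e l)) := by
  refine Cn_mono ?_ h
  rintro x (hx | hx)
  · exact ⟨k, hk, hx⟩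
  · exact ⟨l, hl, hx⟩
where
  Cn_mono {S T : Set {x : V // x ≠ v}} (h : S ⊆ T) {u w : {x : V // x ≠ v}}
      (p : Cn (HH G v) S u w) : Cn (HH G v) T u w := by
    obtain ⟨w', hw⟩ := p
    exact ⟨w', fun z hz => h (hw z hz)⟩

lemma four (ha : ∀ k, G.Adj v (a k).1) (g : {x : V // x ≠ v} → Fin 5)
    (hinj : Function.Injective (fun k => g (a k))) (hW : ¬ WK V G) (e : Fin 4 → Fin d)
    (he : Function.Injective e) :
    ∃ p q : Fin 4, p < q ∧ ¬ KK G v a g (e p) (e q) (a (e q)) := by
  by_contra hc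
  push Not at hc
  apply hW
  refine wk_of G v a ha g hinj e he id (fun p q => {p, q}) (by decide) (by decide) ?_
  intro p q hpq
  exact cc_pair G v a g e _ p q (by simp) (by simp) (hc p q hpq)

lemma wheel (ha : ∀ k, G.Adj v (a k).1) (g : {x : V // x ≠ v} → Fin 5)
    (hinj : Function.Injective (fun k => g (a k))) (hW : ¬ WK V G) (e : Fin 5 → Fin d)
    (he : Function.Injective e) :
    ¬ (KK G v a g (e 0) (e 1) (a (e 1)) ∧ KK G v a g (e 0) (e 2) (a (e 2)) ∧
      KK G v a g (e 0) (e 3) (a (e 3)) ∧ KK G v a g (e 1) (e 4) (a (e 4)) ∧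
      KK G v a g (e 4) (e 2) (a (e 2)) ∧ KK G v a g (e 2) (e 3) (a (e 3)) ∧
      KK G v a g (e 1) (e 3) (a (e 3))) := by
  rintro ⟨k1, k2, k3, k4, k5, k6, k7⟩
  apply hW
  refine wk_of G v a ha g hinj e he Fin.castSucc
    (fun p q => if p = 1 ∧ q = 2 then {1, 2, 4} else {p.castSucc, q.castSucc})
    (by decide) (by decide) ?_
  intro p q hpq
  have h14 := cc_pair G v a g e {1, 2, 4} 1 4 (by decide) (by decide) k4
  have h42 := cc_pair G v a g e {1, 2, 4} 4 2 (by decide) (by decide) k5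
  fin_cases p <;> fin_cases q <;> first
    | exact absurd hpq (by decide)
    | skip
  · exact cc_pair G v a g e _ 0 1 (by decide) (by decide) k1
  · exact cc_pair G v a g e _ 0 2 (by decide) (by decide) k2
  · exact cc_pair G v a g e _ 0 3 (by decide) (by decide) k3
  · obtain ⟨w, hw⟩ := h14
    obtain ⟨w', hw'⟩ := h42
    refine ⟨w.append w', fun z hz => ?_⟩
    rw [SimpleGraph.Walk.mem_support_append_iff] at hz
    exact hz.elim (hw z) (hw' z)
  · exact cc_pair G v a g e _ 1 3 (by decide) (by decide) k7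
  · exact cc_pair G v a g e _ 2 3 (by decide) (by decide) k6

end

/-- three pairs -/
lemma three_pairs (Q : Fin 5 → Fin 5 → Prop) (hs : ∀ i j, Q i j → Q j i)
    (h4 : ∀ e : Fin 4 → Fin 5, Function.Injective e → ∃ p q : Fin 4, p < q ∧ ¬ Q (e p) (e q))
    (h5 : ∀ e : Fin 5 → Fin 5, Function.Injective e →
      ¬ (Q (e 0) (e 1) ∧ Q (e 0) (e 2) ∧ Q (e 0) (e 3) ∧ Q (e 1) (e 4) ∧ Q (e 4) (e 2) ∧
        Q (e 2) (e 3) ∧ Q (e 1) (e 3))) :
    ∃ P : Fin 3 → Fin 5 × Fin 5, Function.Injective P ∧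
      ∀ t, (P t).1 < (P t).2 ∧ ¬ Q (P t).1 (P t).2 := by
  -- a missing pair away from a given vertex
  have hw : ∀ w : Fin 5, ∃ k l : Fin 5, k ≠ l ∧ k ≠ w ∧ l ≠ w ∧ ¬ Q k l := by
    intro w
    obtain ⟨p, q, hpq, hQ⟩ := h4 (Fin.succAbove w) Fin.succAbove_right_injective
    exact ⟨_, _, fun h => hpq.ne (Fin.succAbove_right_injective h), Fin.succAbove_ne _ _,
      Fin.succAbove_ne _ _, hQ⟩
  -- it is enough to find three unordered pairs
  have hfin : ∀ i j k l m n : Fin 5, i ≠ j → k ≠ l → m ≠ n → ¬ Q i j → ¬ Q k l → ¬ Q m n →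
      s(i, j) ≠ s(k, l) → s(i, j) ≠ s(m, n) → s(k, l) ≠ s(m, n) →
      ∃ P : Fin 3 → Fin 5 × Fin 5, Function.Injective P ∧
        ∀ t, (P t).1 < (P t).2 ∧ ¬ Q (P t).1 (P t).2 := by
    intro i j k l m n hij hkl hmn q1 q2 q3 n1 n2 n3
    have hord : ∀ x y : Fin 5, x ≠ y → ¬ Q x y →
        ∃ e : Fin 5 × Fin 5, e.1 < e.2 ∧ ¬ Q e.1 e.2 ∧ s(e.1, e.2) = s(x, y) := by
      intro x y hxy hQ
      rcases lt_or_gt_of_ne hxy with h | h
      · exact ⟨(x, y), h, hQ, rfl⟩
      · exact ⟨(y, x), h, fun hh => hQ (hs _ _ hh), Sym2.eq_swap⟩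
    obtain ⟨e1, a1, b1, c1⟩ := hord i j hij q1
    obtain ⟨e2, a2, b2, c2⟩ := hord k l hkl q2
    obtain ⟨e3, a3, b3, c3⟩ := hord m n hmn q3
    have d1 : e1 ≠ e2 := by
      rintro rfl
      exact n1 (c1.symm.trans c2)
    have d2 : e1 ≠ e3 := by
      rintro rfl
      exact n2 (c1.symm.trans c3)
    have d3 : e2 ≠ e3 := by
      rintro rfl
      exact n3 (c2.symm.trans c3)
    refine ⟨![e1, e2, e3], ?_, ?_⟩
    · intro x y hxy
      fin_cases x <;> fin_cases y <;> first
        | rfl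
        | exact absurd hxy d1
        | exact absurd hxy d2
        | exact absurd hxy d3
        | exact absurd hxy.symm d1
        | exact absurd hxy.symm d2
        | exact absurd hxy.symm d3
    · intro t
      fin_cases t
      · exact ⟨a1, b1⟩
      · exact ⟨a2, b2⟩
      · exact ⟨a3, b3⟩
  obtain ⟨i, j, hij, -, -, q1⟩ := hw 0
  obtain ⟨k, l, hkl, hki, hli, q2⟩ := hw i
  have n1 : s(i, j) ≠ s(k, l) := by
    intro h
    rcases Sym2.eq_iff.1 h with ⟨h, _⟩ | ⟨h, _⟩
    · exact hki h.symm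
    · exact hli h.symm
  by_cases hj : j = k ∨ j = l
  · obtain ⟨m, n, hmn, hmj, hnj, q3⟩ := hw j
    refine hfin i j k l m n hij hkl hmn q1 q2 q3 n1 ?_ ?_
    · intro h
      rcases Sym2.eq_iff.1 h with ⟨_, h⟩ | ⟨_, h⟩
      · exact hnj h.symm
      · exact hmj h.symm
    · intro h
      rcases Sym2.eq_iff.1 h with ⟨h, h'⟩ | ⟨h, h'⟩
      · rcases hj with hj | hj
        · exact hmj (hj.trans h).symm
        · exact hnj (hj.trans h').symm
      · rcases hj with hj | hj
        · exact hnj (hj.trans h).symm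
        · exact hmj (hj.trans h').symm
  · push Not at hj
    obtain ⟨hjk, hjl⟩ := hj
    obtain ⟨h, hhi, hhj, hhk, hhl⟩ : ∃ h : Fin 5, h ≠ i ∧ h ≠ j ∧ h ≠ k ∧ h ≠ l := by
      have : ∀ i j k l : Fin 5, ∃ h : Fin 5, h ≠ i ∧ h ≠ j ∧ h ≠ k ∧ h ≠ l := by decide
      exact this i j k l
    have hei : Function.Injective (![h, i, j, l, k] : Fin 5 → Fin 5) := by
      intro x y hxy
      fin_cases x <;> fin_cases y <;> first
        | rfl
        | exact absurd hxy hhi
        | exact absurd hxy hhj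
        | exact absurd hxy hhk
        | exact absurd hxy hhl
        | exact absurd hxy.symm hhi
        | exact absurd hxy.symm hhj
        | exact absurd hxy.symm hhk
        | exact absurd hxy.symm hhl
        | exact absurd hxy hij
        | exact absurd hxy.symm hij
        | exact absurd hxy hkl
        | exact absurd hxy.symm hkl
        | exact absurd hxy hki
        | exact absurd hxy.symm hki
        | exact absurd hxy hli
        | exact absurd hxy.symm hli
        | exact absurd hxy hjk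
        | exact absurd hxy.symm hjk
        | exact absurd hxy hjl
        | exact absurd hxy.symm hjl
    have h6 : ¬ (Q h i ∧ Q h j ∧ Q h l ∧ Q i k ∧ Q k j ∧ Q j l ∧ Q i l) := h5 _ hei
    have h7 : ∃ m n : Fin 5, m ≠ n ∧ ¬ Q m n ∧ s(i, j) ≠ s(m, n) ∧ s(k, l) ≠ s(m, n) := by
      by_contra hcon
      push Not at hcon
      apply h6
      have key : ∀ m n : Fin 5, m ≠ n → s(i, j) ≠ s(m, n) → s(k, l) ≠ s(m, n) → Q m n := by
        intro m n hmn z1 z2
        by_contra hQ
        exact z2 (hcon m n hmn hQ z1)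
      have sy : ∀ x y z w : Fin 5, (x ≠ z ∨ y ≠ w) → (x ≠ w ∨ y ≠ z) → s(x, y) ≠ s(z, w) := by
        intro x y z w u1 u2 u3
        rcases Sym2.eq_iff.1 u3 with ⟨u, u'⟩ | ⟨u, u'⟩
        · rcases u1 with u1 | u1
          · exact u1 u
          · exact u1 u'
        · rcases u2 with u2 | u2
          · exact u2 u
          · exact u2 u'
      refine ⟨key _ _ hhi ?_ ?_, key _ _ hhj ?_ ?_, key _ _ hhl ?_ ?_, key _ _ hki.symm ?_ ?_,
        key _ _ hjk.symm ?_ ?_, key _ _ hjl ?_ ?_, key _ _ hli.symm ?_ ?_⟩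
      · exact sy _ _ _ _ (Or.inl hhi.symm) (Or.inr hhj.symm)
      · exact sy _ _ _ _ (Or.inl hhk.symm) (Or.inr hhl.symm)
      · exact sy _ _ _ _ (Or.inl hhi.symm) (Or.inr hhj.symm)
      · exact sy _ _ _ _ (Or.inl hhk.symm) (Or.inr hhl.symm)
      · exact sy _ _ _ _ (Or.inl hhi.symm) (Or.inr hhj.symm)
      · exact sy _ _ _ _ (Or.inl hhk.symm) (Or.inr hhl.symm)
      · exact sy _ _ _ _ (Or.inr hjk) (Or.inl hki.symm)
      · exact sy _ _ _ _ (Or.inl hki) (Or.inr hli)
      · exact sy _ _ _ _ (Or.inl hki.symm) (Or.inr hjk)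
      · exact sy _ _ _ _ (Or.inr hjl.symm) (Or.inr hkl.symm)
      · exact sy _ _ _ _ (Or.inr hjl) (Or.inl hli.symm)
      · exact sy _ _ _ _ (Or.inl hjk.symm) (Or.inr hjl.symm)
      · exact sy _ _ _ _ (Or.inr hjl) (Or.inl hli.symm)
      · exact sy _ _ _ _ (Or.inl hki) (Or.inr hli)
    obtain ⟨m, n, hmn, q3, z1, z2⟩ := h7
    exact hfin i j k l m n hij hkl hmn q1 q2 q3 n1 z1 z2

end Pool.Agent.Q262.BL
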